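import Mathlib

set_option autoImplicit false

/-!
The triangle `K₃`, and every disjoint union of triangles, has exactly one edge weighting with
values in a given three-element set of reals, up to isomorphism, that properly colours its
vertices by sums.
-/

namespace Pool.Agent.Results.MP_9e9a14_co.Triangles

open SimpleGraph

/-- The vertex sum `σ_w(v)`: the sum of the weights of the edges at `v`. -/
noncomputable def vertexSum {V : Type} (G : SimpleGraph V) (w : Sym2 V → ℝ) (v : V) : ℝ :=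
  ∑ᶠ e ∈ G.incidenceSet v, w e

/-- `w` is an edge `S`-weighting of `G` (only its values on the edges matter) that properly
colours the vertices by sums. -/
def ProperWeighting {V : Type} (G : SimpleGraph V) (S : Set ℝ) (w : Sym2 V → ℝ) : Prop :=
  (∀ e ∈ G.edgeSet, w e ∈ S) ∧ ∀ u v, G.Adj u v → vertexSum G w u ≠ vertexSum G w v

/-- Two edge weightings of `G` are isomorphic: an automorphism of `G` maps one to the other. -/
def IsoWeightings {V : Type} (G : SimpleGraph V) (w w' : Sym2 V → ℝ) : Prop :=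
  ∃ φ : G ≃g G, ∀ e ∈ G.edgeSet, w' (e.map φ) = w e

/-- `G` is uniquely `S`-weight colourable. -/
def UniquelyWeightColourable {V : Type} (G : SimpleGraph V) (S : Set ℝ) : Prop :=
  (∃ w, ProperWeighting G S w) ∧
    ∀ w w', ProperWeighting G S w → ProperWeighting G S w' → IsoWeightings G w w'

theorem fin3 : ∀ a b c : Fin 3, a ≠ b → c ≠ a → c ≠ b →
    (a = c + 1 ∧ b = c + 2) ∨ (a = c + 2 ∧ b = c + 1) := by decide

theorem fin3' : ∀ a b : Fin 3, a ≠ b → ∃ c, c ≠ a ∧ c ≠ b := by decide

theorem fin3a : ∀ j : Fin 3, j ≠ j + 1 ∧ j + 2 ≠ j ∧ j + 2 ≠ j + 1 ∧ j ≠ j + 2 ∧ j + 1 ≠ j ∧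
    j + 1 ≠ j + 2 := by decide

theorem fin3'' : ∀ a b : Fin 3, a ≠ b ↔ (b = a + 1 ∨ b = a + 2) := by decide

/-- a bijection between the ranges of two injective maps from `Fin 3` into a 3-element set -/
theorem perm_of_injective {S : Set ℝ} (hS : S.ncard = 3) (f g : Fin 3 → ℝ)
    (hf : Function.Injective f) (hg : Function.Injective g) (hfS : ∀ i, f i ∈ S)
    (hgS : ∀ i, g i ∈ S) : ∃ π : Fin 3 ≃ Fin 3, ∀ i, g (π i) = f i := by
  have hfin : S.Finite := Set.finite_of_ncard_ne_zero (by omega)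
  have key : ∀ h : Fin 3 → ℝ, Function.Injective h → (∀ i, h i ∈ S) → ∀ x ∈ S, ∃ i, h i = x := by
    intro h hh hhS
    have h1 : Set.range h ⊆ S := by rintro _ ⟨i, rfl⟩; exact hhS i
    have h2 : (Set.range h).ncard = 3 := by
      rw [← Set.image_univ, Set.ncard_image_of_injective _ hh, Set.ncard_univ, Nat.card_eq_fintype_card,
        Fintype.card_fin]
    have h3 : Set.range h = S := Set.eq_of_subset_of_ncard_le h1 (by omega) hfin
    intro x hx
    rw [← h3] at hx
    exact hx
  choose π hπ using fun i => key g hg hgS (f i) (hfS i)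
  have hinj : Function.Injective π := by
    intro a b hab
    apply hf
    rw [← hπ a, ← hπ b, hab]
  exact ⟨Equiv.ofBijective π (Finite.injective_iff_bijective.mp hinj), hπ⟩

/-- three distinct elements of a 3-element set -/
theorem exists_injective {S : Set ℝ} (hS : S.ncard = 3) :
    ∃ f : Fin 3 → ℝ, Function.Injective f ∧ ∀ i, f i ∈ S := by
  obtain ⟨x, y, z, hxy, hxz, hyz, rfl⟩ := Set.ncard_eq_three.mp hS
  refine ⟨![x, y, z], ?_, ?_⟩
  · intro i j hij
    fin_cases i <;> fin_cases j <;> simp_all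
  · intro i
    fin_cases i <;> simp

section copies

variable (ι : Type)

/-- the graph of `ι` disjoint triangles -/
abbrev T : SimpleGraph (ι × Fin 3) := (⊥ : SimpleGraph ι) □ (⊤ : SimpleGraph (Fin 3))

variable {ι}

theorem adj_iff (a b : ι × Fin 3) : (T ι).Adj a b ↔ a.1 = b.1 ∧ a.2 ≠ b.2 := by
  simp [boxProd_adj, and_comm]

/-- weight of the edge opposite to the vertex `(i, j)` -/
def opp (w : Sym2 (ι × Fin 3) → ℝ) (i : ι) (j : Fin 3) : ℝ := w s((i, j + 1), (i, j + 2))

theorem opp_eq (w : Sym2 (ι × Fin 3) → ℝ) (i : ι) (a b c : Fin 3) (h1 : a ≠ b) (h2 : c ≠ a)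
    (h3 : c ≠ b) : w s((i, a), (i, b)) = opp w i c := by
  rcases fin3 a b c h1 h2 h3 with ⟨rfl, rfl⟩ | ⟨rfl, rfl⟩
  · rfl
  · rw [Sym2.eq_swap]; rfl

theorem incidence (i : ι) (j : Fin 3) :
    (T ι).incidenceSet (i, j) = {s((i, j), (i, j + 1)), s((i, j), (i, j + 2))} := by
  ext e
  induction e with
  | _ a b =>
    simp only [SimpleGraph.mk'_mem_incidenceSet_iff, adj_iff, Set.mem_insert_iff,
      Set.mem_singleton_iff, Sym2.eq_iff, fin3'']
    obtain ⟨a1, a2⟩ := a
    obtain ⟨b1, b2⟩ := b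
    simp only [Prod.mk.injEq]
    constructor
    · rintro ⟨⟨h1, h2⟩, h3 | h3⟩
      · obtain ⟨rfl, rfl⟩ := h3
        subst h1
        rcases h2 with rfl | rfl <;> simp
      · obtain ⟨rfl, rfl⟩ := h3
        subst h1
        rcases h2 with h2 | h2
        · have : a2 = j + 2 := by subst h2; revert a2; decide
          subst this; simp
        · have : a2 = j + 1 := by subst h2; revert a2; decide
          subst this; simp
    · rintro ((⟨⟨rfl, rfl⟩, rfl, rfl⟩ | ⟨⟨rfl, rfl⟩, rfl, rfl⟩) |
        (⟨⟨rfl, rfl⟩, rfl, rfl⟩ | ⟨⟨rfl, rfl⟩, rfl, rfl⟩))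
      · simp
      · refine ⟨⟨rfl, ?_⟩, Or.inr ⟨rfl, rfl⟩⟩
        revert b2; decide
      · simp
      · refine ⟨⟨rfl, ?_⟩, Or.inr ⟨rfl, rfl⟩⟩
        revert b2; decide

theorem vertexSum_eq (w : Sym2 (ι × Fin 3) → ℝ) (i : ι) (j : Fin 3) :
    vertexSum (T ι) w (i, j) = opp w i (j + 1) + opp w i (j + 2) := by
  have hne : s((i, j), (i, j + 1)) ≠ s((i, j), (i, j + 2)) := by
    intro h
    rw [Sym2.eq_iff] at h
    simp only [Prod.mk.injEq, true_and] at h
    revert h; revert j; decide
  unfold vertexSum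
  rw [incidence, finsum_mem_pair hne]
  have e1 : w s((i, j), (i, j + 1)) = opp w i (j + 2) :=
    opp_eq w i j (j + 1) (j + 2) (fin3a j).1 (fin3a j).2.1 (fin3a j).2.2.1
  have e2 : w s((i, j), (i, j + 2)) = opp w i (j + 1) :=
    opp_eq w i j (j + 2) (j + 1) (fin3a j).2.2.2.1 (fin3a j).2.2.2.2.1 (fin3a j).2.2.2.2.2
  rw [e1, e2, add_comm]

theorem sum_three (f : Fin 3 → ℝ) (j : Fin 3) : f (j + 1) + f (j + 2) = (f 0 + f 1 + f 2) - f j := by
  have h : ∀ j : Fin 3, j = 0 ∨ j = 1 ∨ j = 2 := by decide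
  rcases h j with rfl | rfl | rfl
  · show f 1 + f 2 = f 0 + f 1 + f 2 - f 0; ring
  · show f 2 + f 0 = f 0 + f 1 + f 2 - f 1; ring
  · show f 0 + f 1 = f 0 + f 1 + f 2 - f 2; ring

theorem vertexSum_eq' (w : Sym2 (ι × Fin 3) → ℝ) (i : ι) (j : Fin 3) :
    vertexSum (T ι) w (i, j) = (opp w i 0 + opp w i 1 + opp w i 2) - opp w i j := by
  rw [vertexSum_eq, sum_three (opp w i)]

theorem proper_iff (S : Set ℝ) (w : Sym2 (ι × Fin 3) → ℝ) :
    ProperWeighting (T ι) S w ↔ (∀ i j, opp w i j ∈ S) ∧ ∀ i, Function.Injective (opp w i) := by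
  constructor
  · rintro ⟨h1, h2⟩
    refine ⟨fun i j => h1 _ ?_, fun i a b hab => ?_⟩
    · rw [mem_edgeSet, adj_iff]
      refine ⟨rfl, ?_⟩
      show j + 1 ≠ j + 2
      revert j; decide
    · by_contra hne
      refine h2 (i, a) (i, b) ?_ ?_
      · rw [adj_iff]; exact ⟨rfl, hne⟩
      · rw [vertexSum_eq', vertexSum_eq', hab]
  · rintro ⟨h1, h2⟩
    constructor
    · intro e
      induction e with
      | _ a b =>
        intro he
        rw [mem_edgeSet, adj_iff] at he
        obtain ⟨a1, a2⟩ := a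
        obtain ⟨b1, b2⟩ := b
        obtain ⟨h3, h4⟩ := he
        simp only at h3 h4
        subst h3
        obtain ⟨c, hc1, hc2⟩ := fin3' a2 b2 h4
        rw [opp_eq w a1 a2 b2 c h4 hc1 hc2]
        exact h1 _ _
    · rintro ⟨a1, a2⟩ ⟨b1, b2⟩ hab heq
      rw [adj_iff] at hab
      obtain ⟨h3, h4⟩ := hab
      simp only at h3 h4
      subst h3
      rw [vertexSum_eq', vertexSum_eq'] at heq
      exact h4 (h2 a1 (by linarith))

theorem unique_copies (S : Set ℝ) (hS : S.ncard = 3) : UniquelyWeightColourable (T ι) S := by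
  classical
  constructor
  · obtain ⟨f, hf, hfS⟩ := exists_injective hS
    -- the weight of the edge `{(i, a), (i, b)}` is `f (- (a + b))`
    refine ⟨Sym2.lift ⟨fun x y => f (-(x.2 + y.2)), fun x y => congrArg f (by rw [add_comm])⟩, ?_⟩
    rw [proper_iff]
    have h : ∀ (i : ι) (j : Fin 3),
        opp (Sym2.lift ⟨fun x y : ι × Fin 3 => f (-(x.2 + y.2)), fun x y => congrArg f (by rw [add_comm])⟩) i j
          = f j := by
      intro i j
      show f (-((j + 1) + (j + 2))) = f j
      congr 1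
      revert j; decide
    refine ⟨fun i j => ?_, fun i a b hab => ?_⟩
    · rw [h]; exact hfS j
    · rw [h, h] at hab; exact hf hab
  · intro w w' hw hw'
    rw [proper_iff] at hw hw'
    choose π hπ using fun i => perm_of_injective hS (opp w i) (opp w' i) (hw.2 i) (hw'.2 i)
      (hw.1 i) (hw'.1 i)
    let φ : (ι × Fin 3) ≃ (ι × Fin 3) := Equiv.prodShear (Equiv.refl ι) π
    have hφ : ∀ x, φ x = (x.1, π x.1 x.2) := fun x => rfl
    refine ⟨⟨φ, ?_⟩, ?_⟩
    · intro a b
      rw [adj_iff, adj_iff, hφ, hφ]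
      constructor
      · rintro ⟨h1, h2⟩
        simp only at h1 h2
        refine ⟨h1, fun h => h2 ?_⟩
        rw [h1, h]
      · rintro ⟨h1, h2⟩
        refine ⟨h1, fun h => h2 ?_⟩
        simp only at h
        rw [h1] at h
        exact (π b.1).injective h
    · intro e
      induction e with
      | _ a b =>
        intro he
        rw [mem_edgeSet, adj_iff] at he
        obtain ⟨a1, a2⟩ := a
        obtain ⟨b1, b2⟩ := b
        obtain ⟨h3, h4⟩ := he
        simp only at h3 h4
        subst h3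
        obtain ⟨c, hc1, hc2⟩ := fin3' a2 b2 h4
        show w' s((a1, π a1 a2), (a1, π a1 b2)) = w s((a1, a2), (a1, b2))
        rw [opp_eq w a1 a2 b2 c h4 hc1 hc2,
          opp_eq w' a1 (π a1 a2) (π a1 b2) (π a1 c) (fun h => h4 ((π a1).injective h))
            (fun h => hc1 ((π a1).injective h)) (fun h => hc2 ((π a1).injective h)), hπ]

end copies

theorem map_symm_map {V W : Type} {G : SimpleGraph V} {H : SimpleGraph W} (ψ : G ≃g H)
    (e : Sym2 W) : (e.map ψ.symm).map ψ = e := by
  induction e with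
  | _ a b => simp

theorem map_map_symm {V W : Type} {G : SimpleGraph V} {H : SimpleGraph W} (ψ : G ≃g H)
    (e : Sym2 V) : (e.map ψ).map ψ.symm = e := by
  induction e with
  | _ a b => simp

/-- being uniquely weight colourable is invariant under isomorphism -/
theorem transfer {V W : Type} (G : SimpleGraph V) (H : SimpleGraph W) (ψ : G ≃g H) (S : Set ℝ)
    (h : UniquelyWeightColourable G S) : UniquelyWeightColourable H S := by
  have hedge : ∀ e : Sym2 V, e ∈ G.edgeSet ↔ e.map ψ ∈ H.edgeSet := by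
    intro e
    induction e with
    | _ a b => simp only [Sym2.map_mk, mem_edgeSet]; exact ψ.map_adj_iff.symm
  have hsum : ∀ (w : Sym2 W → ℝ) (v : V),
      vertexSum G (fun e => w (e.map ψ)) v = vertexSum H w (ψ v) := by
    intro w v
    unfold vertexSum
    have himg : H.incidenceSet (ψ v) = (Sym2.map ψ) '' (G.incidenceSet v) := by
      ext e
      constructor
      · rintro ⟨h1, h2⟩
        refine ⟨e.map ψ.symm, ⟨?_, ?_⟩, ?_⟩
        · rw [hedge]
          rwa [map_symm_map]
        · rw [Sym2.mem_map]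
          exact ⟨ψ v, h2, by simp⟩
        · exact map_symm_map ψ e
      · rintro ⟨e', ⟨h1, h2⟩, rfl⟩
        exact ⟨(hedge e').1 h1, Sym2.mem_map.mpr ⟨v, h2, rfl⟩⟩
    rw [himg, finsum_mem_image ((Sym2.map.injective ψ.injective).injOn)]
  have hproper : ∀ w : Sym2 W → ℝ, ProperWeighting H S w ↔
      ProperWeighting G S (fun e => w (e.map ψ)) := by
    intro w
    constructor
    · rintro ⟨h1, h2⟩
      refine ⟨fun e he => h1 _ ((hedge e).1 he), fun u v huv => ?_⟩
      rw [hsum, hsum]
      exact h2 _ _ (ψ.map_adj_iff.mpr huv)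
    · rintro ⟨h1, h2⟩
      constructor
      · intro e he
        have e1 : (e.map ψ.symm).map ψ = e := map_symm_map ψ e
        have := h1 (e.map ψ.symm) ((hedge _).2 (by rwa [e1]))
        simp only [e1] at this
        exact this
      · intro u v huv
        have := h2 (ψ.symm u) (ψ.symm v) (ψ.symm.map_adj_iff.mpr huv)
        rw [hsum, hsum] at this
        simpa using this
  obtain ⟨⟨w, hw⟩, huniq⟩ := h
  constructor
  · refine ⟨fun e => w (e.map ψ.symm), ?_⟩
    rw [hproper]
    have : (fun e : Sym2 V => w ((e.map ψ).map ψ.symm)) = w := by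
      funext e
      rw [map_map_symm]
    rw [this]
    exact hw
  · intro w w' hw hw'
    obtain ⟨φ, hφ⟩ := huniq _ _ ((hproper w).1 hw) ((hproper w').1 hw')
    refine ⟨(ψ.symm.trans φ).trans ψ, fun e he => ?_⟩
    have e1 : (e.map ψ.symm).map ψ = e := map_symm_map ψ e
    have := hφ (e.map ψ.symm) ((hedge _).2 (by rwa [e1]))
    simp only [e1] at this
    rw [← this]
    congr 1
    rw [Sym2.map_map, Sym2.map_map]
    rfl

/-- For every three-element set `S` of reals, in particular for `S = {1, 2, 3}`, the triangle is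
uniquely `S`-weight colourable, and so is the disjoint union of any number `m ≥ 1` of triangles. -/
theorem result :
    UniquelyWeightColourable (⊤ : SimpleGraph (Fin 3)) {1, 2, 3} ∧
    ∀ S : Set ℝ, S.ncard = 3 →
      UniquelyWeightColourable (⊤ : SimpleGraph (Fin 3)) S ∧
      ∀ m : ℕ, 1 ≤ m →
        UniquelyWeightColourable ((⊥ : SimpleGraph (Fin m)) □ (⊤ : SimpleGraph (Fin 3))) S := by
  have key : ∀ S : Set ℝ, S.ncard = 3 →
      UniquelyWeightColourable (⊤ : SimpleGraph (Fin 3)) S := by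
    intro S hS
    refine transfer (T Unit) ⊤ ⟨Equiv.punitProd (Fin 3), ?_⟩ S (unique_copies S hS)
    intro a b
    rw [adj_iff]
    simp [Equiv.punitProd]
  refine ⟨key _ ?_, fun S hS => ⟨key S hS, fun m _ => unique_copies S hS⟩⟩
  rw [Set.ncard_eq_three]
  exact ⟨1, 2, 3, by norm_num, by norm_num, by norm_num, rfl⟩

end Pool.Agent.Results.MP_9e9a14_co.Triangles
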